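import Pool.Agent.W886.AM.Stm0

/-!
# The assembly
-/

set_option autoImplicit false

namespace Pool.Agent.W886.AM

open Pool.Agent.NPC Pool.Agent.H622R2 Pool.Agent.H620R2.Gauge Pool.Agent.W900.RB
open Pool.Agent.W895.MA
open Pool.Agent.H628R3.RO (randomOracle)
open Pool.Agent.W900.CH (Close)
open MeasureTheory Filter

theorem bl_mem (n : ℕ) (w u : List Bool) (j : ℕ) : bl n w u j ∈ Region n := reg_mem n _

theorem clean_congr {O B : Oracle} {n : ℕ} (h : ∀ y ∈ Region n, B y = O y) (hO : Clean O n) :
    Clean B n := by
  intro r hr w u hw hu
  obtain ⟨j, hj, h1⟩ := hO r hr w u hw hu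
  exact ⟨j, hj, by rw [h _ (bl_mem n w u j)]; exact h1⟩

/-- many changes: `AM` is not in `MA` -/
theorem neg (hstg : S_STG) (hcl : S_CLEAN) (htask : S_TASK) (hamv : S_AMV) {g : ℕ → ℝ}
    (hg : Super g) : ∀ᵐ O ∂randomOracle, ∃ A : Oracle, Close g O A ∧
      ∃ L, IsAM A L ∧ ¬ IsMA A L := by
  classical
  have h1 := CC.poly_countable
  obtain ⟨al, hal⟩ := exists_alg
  have h2 : Countable Alg := inferInstance
  have h3 : Nonempty (Alg × Polynomial ℕ) := ⟨(al 0, 0)⟩
  obtain ⟨u, hu⟩ := exists_surjective_nat (Alg × Polynomial ℕ)
  choose cost b hT using fun k => htask (u k).1 (u k).2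
  filter_upwards [ae_marked, hcl] with O hO hC
  obtain ⟨N₀, hN₀⟩ := eventually_atTop.1 hO
  obtain ⟨A, n, hn, hnN, hclose, hoff, hW⟩ := hstg g hg O (fun k n A => WM (u k).1 (u k).2 n A)
    cost b N₀ (fun k => by
      filter_upwards [hT k, hC] with n h4 h5 B hB
      exact h4 B (clean_congr hB h5))
  refine ⟨A, hclose, {x | ∃ k, x = List.replicate (n k) true ∧
    ∀ w : List Bool, w.length = rr A (n k) → Wit A (n k) w}, ?_, ?_⟩
  · obtain ⟨V, hV, hVs⟩ := hamv A N₀
    refine ⟨V, Polynomial.X, hV, fun x => ?_⟩
    rw [Polynomial.eval_X]
    by_cases hx : ∃ k, x = List.replicate (n k) true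
    · obtain ⟨k, rfl⟩ := hx
      obtain ⟨r, hr, hmark, hrr, hcase⟩ := hW k
      have hmem : (List.replicate (n k) true ∈ {x | ∃ k, x = List.replicate (n k) true ∧
          ∀ w : List Bool, w.length = rr A (n k) → Wit A (n k) w}) ↔
          ∀ w : List Bool, w.length = rr A (n k) → Wit A (n k) w := by
        constructor
        · rintro ⟨k', h5, h6⟩
          have h7 : n k' = n k := by
            have := congrArg List.length h5
            simpa using this.symm
          rw [← hn.injective h7]
          exact h6
        · intro h
          exact ⟨k, rfl, h⟩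
      rw [hmem, hrr]
      have hVx : ∀ w : List Bool, (∃ y : List Bool, y.length ≤ (List.replicate (n k) true).length ∧
          V (pairBits w (pairBits y (List.replicate (n k) true))) = [true]) ↔
          Wit A (n k) (w.take r) := by
        intro w
        constructor
        · rintro ⟨y, -, h5⟩
          have h6 := ((hVs w y _).1 h5).2.2.2.2
          rw [List.length_replicate, hrr] at h6
          exact ⟨y, h6⟩
        · rintro ⟨y, h5⟩
          refine ⟨y, by rw [List.length_replicate]; exact h5.1.le, ?_⟩
          rw [hVs]
          rw [List.length_replicate, hrr]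
          exact ⟨hnN k, rfl, hmark, hr, h5⟩
      have hpr : amPr V (List.replicate (n k) true).length (List.replicate (n k) true) =
          (Nat.card {w : Fin r → Bool // Wit A (n k) (List.ofFn w)} : ℝ) / 2 ^ r := by
        unfold amPr
        have h5 : Nat.card {w : Fin (List.replicate (n k) true).length → Bool //
            ∃ y : List Bool, y.length ≤ (List.replicate (n k) true).length ∧
              V (pairBits (List.ofFn w) (pairBits y (List.replicate (n k) true))) = [true]} =
            Nat.card {w : Fin (List.replicate (n k) true).length → Bool //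
              Wit A (n k) ((List.ofFn w).take r)} := by
          apply Nat.card_congr
          exact Equiv.subtypeEquivRight fun w => hVx _
        have hl : (List.replicate (n k) true).length = n k := List.length_replicate
        rw [h5, card_prefix (fun v => Wit A (n k) v) (r := r) (by rw [hl]; exact hr.le)]
        push_cast
        have h6 : (2 : ℝ) ^ (List.replicate (n k) true).length =
            2 ^ ((List.replicate (n k) true).length - r) * 2 ^ r := by
          rw [← pow_add]
          congr 1
          rw [hl]
          omega
        rw [h6]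
        field_simp
      rw [hpr]
      constructor
      · intro h5
        have h6 : Nat.card {w : Fin r → Bool // Wit A (n k) (List.ofFn w)} = 2 ^ r := by
          have h7 : ∀ w : Fin r → Bool, Wit A (n k) (List.ofFn w) := fun w => h5 _ (by simp)
          rw [Nat.card_congr (Equiv.subtypeUnivEquiv h7), Nat.card_eq_fintype_card,
            Fintype.card_fun, Fintype.card_bool, Fintype.card_fin]
        rw [h6]
        push_cast
        rw [div_self (by positivity)]
        norm_num
      · intro h5
        rcases hcase with h6 | h6
        · exact absurd h6.1 h5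
        · rw [div_le_iff₀ (by positivity)]
          have h7 : (3 : ℝ) * (Nat.card {w : Fin r → Bool // Wit A (n k) (List.ofFn w)} : ℝ) ≤
              2 ^ r := by exact_mod_cast h6.1
          linarith
    · have hno : ∀ w y : List Bool, V (pairBits w (pairBits y x)) ≠ [true] := by
        intro w y h5
        obtain ⟨h6, h7, h8, -⟩ := (hVs w y x).1 h5
        apply hN₀ x.length h6
        intro j hj
        rw [← hoff]
        · exact h8 j hj
        · intro k hk
          apply hx
          refine ⟨k, ?_⟩
          rw [← region_inj (reg_mem x.length _) hk]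
          exact h7
      constructor
      · rintro ⟨k, hk, -⟩
        exact absurd ⟨k, hk⟩ hx
      · intro _
        have h5 : amPr V x.length x = 0 := by
          unfold amPr
          have h6 : IsEmpty {w : Fin x.length → Bool // ∃ y : List Bool, y.length ≤ x.length ∧
              V (pairBits (List.ofFn w) (pairBits y x)) = [true]} := by
            constructor
            rintro ⟨w, y, -, h7⟩
            exact hno _ _ h7
          rw [Nat.card_eq_zero.2 (Or.inl h6)]
          simp
        rw [h5]
        norm_num
  · rintro ⟨V, p, ⟨M, hM⟩, hV⟩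
    obtain ⟨k, hk⟩ := hu (M, p)
    obtain ⟨r, hr, hmark, hrr, hcase⟩ := hW k
    rw [hk] at hcase
    dsimp only at hcase
    have hacc : ∀ y : List Bool, accPr V (p.eval (List.replicate (n k) true).length)
        (pairBits y (List.replicate (n k) true)) =
        (Nat.card {ω : Fin (p.eval (n k)) → Bool // M.out A (pairBits (List.ofFn ω)
          (pairBits y (List.replicate (n k) true))) = some [true]} : ℝ) / 2 ^ p.eval (n k) := by
      intro y
      unfold accPr
      rw [List.length_replicate]
      congr 2
      apply Nat.card_congr
      refine Equiv.subtypeEquivRight fun w => ?_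
      rw [hM, Option.some.injEq]
    have h5 := hV (List.replicate (n k) true)
    have hpos : (0 : ℝ) < 2 ^ p.eval (n k) := by positivity
    rcases hcase with ⟨h6, h7⟩ | ⟨h6, y, h7, h8⟩
    · obtain ⟨y, h8, h9⟩ := h5.1 ⟨k, rfl, by rw [hrr]; exact h6⟩
      rw [List.length_replicate] at h8
      rw [hacc, div_le_div_iff₀ (by norm_num) hpos] at h9
      have h10 : (3 : ℝ) * (Nat.card {ω : Fin (p.eval (n k)) → Bool //
          M.out A (pairBits (List.ofFn ω) (pairBits y (List.replicate (n k) true))) =
            some [true]} : ℝ) < 2 * 2 ^ p.eval (n k) := by exact_mod_cast h7 y h8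
      linarith
    · have h9 : List.replicate (n k) true ∉ {x | ∃ k, x = List.replicate (n k) true ∧
          ∀ w : List Bool, w.length = rr A (n k) → Wit A (n k) w} := by
        rintro ⟨k', h10, h11⟩
        have h12 : n k' = n k := by
          have := congrArg List.length h10
          simpa using this.symm
        rw [hn.injective h12, hrr] at h11
        have h13 : Nat.card {w : Fin r → Bool // Wit A (n k) (List.ofFn w)} = 2 ^ r := by
          have h14 : ∀ w : Fin r → Bool, Wit A (n k) (List.ofFn w) := fun w => h11 _ (by simp)
          rw [Nat.card_congr (Equiv.subtypeUnivEquiv h14), Nat.card_eq_fintype_card,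
            Fintype.card_fun, Fintype.card_bool, Fintype.card_fin]
        rw [h13] at h6
        have : 0 < 2 ^ r := by positivity
        omega
      have h10 := h5.2 h9 y (by rw [List.length_replicate]; exact h7)
      rw [hacc, div_le_div_iff₀ hpos (by norm_num)] at h10
      have h11 : (2 : ℝ) ^ p.eval (n k) < 3 * (Nat.card {ω : Fin (p.eval (n k)) → Bool //
          M.out A (pairBits (List.ofFn ω) (pairBits y (List.replicate (n k) true))) =
            some [true]} : ℝ) := by exact_mod_cast h8
      linarith

/-- few changes: `AM = MA = NP` -/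
theorem pos (h1 : S_AMNP) (h2 : S_MANP) (h3 : S_NPI) {g : ℕ → ℝ} (hg : ¬ Super g) :
    ∀ᵐ O ∂randomOracle, ∀ A : Oracle, Close g O A →
      (∀ L, IsAM A L ↔ IsNP A L) ∧ ∀ L, IsMA A L ↔ IsNP A L := by
  obtain ⟨c, hc⟩ := pclose_of_not_super hg
  filter_upwards [h1, h2] with O hO1 hO2 A hA
  have hP : ∃ c, PClose c O A := ⟨c, hc O A hA⟩
  exact ⟨fun L => ⟨hO1 A hP L, fun h => (h3 A L h).2⟩, fun L => ⟨hO2 A hP L, fun h => (h3 A L h).1⟩⟩

end Pool.Agent.W886.AM
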