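import Pool.Agent.W900.RB.Fin
import Pool.Agent.W895.MA.Defs

/-!
# Changing superpolynomially many strings to separate `AM` and `MA`: the objects
-/

set_option autoImplicit false

namespace Pool.Agent.W886.AM

open Pool.Agent.NPC Pool.Agent.H620R2.Gauge Pool.Agent.W900.RB

/-- the strings of the block for the challenge `w` and the message `u` in the region `n` -/
def bl (n : ℕ) (w u : List Bool) (j : ℕ) : List Bool :=
  reg n (true :: (w ++ (u ++ List.replicate j true)))

/-- the message `u` of length `n` answers the challenge `w`: the block for `w` and `u` is in the
oracle -/
def Ans (A : Oracle) (n : ℕ) (w u : List Bool) : Prop :=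
  u.length = n ∧ ∀ j < 3 * n, A (bl n w u j) = true

/-- the challenge `w` has an answer -/
def Wit (A : Oracle) (n : ℕ) (w : List Bool) : Prop := ∃ u, Ans A n w u

/-- the part of the region after the marker, for the partial table `t` of answers to the challenges
of length `r` -/
def contT (B : Oracle) (n r : ℕ) (t : List Bool → Option (List Bool)) : List Bool → Bool
  | false :: z => if z = List.replicate z.length true ∧ z.length < 2 * n then
      decide (z.length < n + r) else B (reg n (false :: z))
  | true :: z => if t (z.take r) = some ((z.drop r).take n) ∧ r + n ≤ z.length ∧
      z.length < r + n + 3 * n ∧ z.drop (r + n) = List.replicate (z.length - (r + n)) true then true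
      else B (reg n (true :: z))
  | [] => B (reg n [])

open Classical in
/-- the oracle with the marker with number `r` and the table `t` in the region `n` -/
noncomputable def setT (B : Oracle) (n r : ℕ) (t : List Bool → Option (List Bool)) : Oracle :=
  fun y => if h : y ∈ Region n then contT B n r t h.choose else B y

/-- there are no answers by chance -/
def Clean (B : Oracle) (n : ℕ) : Prop :=
  ∀ r ≤ n, ∀ w u : List Bool, w.length = r → u.length = n → ∃ j < 3 * n, B (bl n w u j) = false

/-- The task of a stage: the region `n` has a marker and a table on which the Merlin-Arthur machine
`M` (messages and random strings bounded by `P`) is wrong: either all challenges have answers and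
`M` accepts no message with probability at least `2/3`, or at most one third of the challenges have
answers and `M` accepts some message with probability more than `1/3`. -/
def WM (M : Alg) (P : Polynomial ℕ) (n : ℕ) (A : Oracle) : Prop :=
  ∃ r, r < n ∧ Marked A n ∧ rr A n = r ∧
    (((∀ w : List Bool, w.length = r → Wit A n w) ∧
      ∀ y : List Bool, y.length ≤ P.eval n →
        3 * Nat.card {ω : Fin (P.eval n) → Bool //
          M.out A (pairBits (List.ofFn ω) (pairBits y (List.replicate n true))) = some [true]} <
          2 * 2 ^ P.eval n) ∨
    (3 * Nat.card {w : Fin r → Bool // Wit A n (List.ofFn w)} ≤ 2 ^ r ∧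
      ∃ y : List Bool, y.length ≤ P.eval n ∧
        2 ^ P.eval n < 3 * Nat.card {ω : Fin (P.eval n) → Bool //
          M.out A (pairBits (List.ofFn ω) (pairBits y (List.replicate n true))) = some [true]}))

end Pool.Agent.W886.AM
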