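import Pool.Agent.W886.AM.Many
import Pool.Agent.W303.AM.NPI
import Pool.Agent.W381.AM.MANPb
import Pool.Agent.W246.AMAMNP
import Pool.Agent.W446.AMAMP

/-!
# All parts together
-/

set_option autoImplicit false

namespace Pool.Agent.W886.AM

open Pool.Agent.NPC Pool.Agent.H620R2.Gauge Pool.Agent.W900.RB Pool.Agent.W895.MA
open Pool.Agent.H628R3.RO (randomOracle)
open Pool.Agent.W900.CH (Close)
open MeasureTheory Filter

theorem few {g : ℕ → ℝ}
    (h : ∃ c : ℕ, ∀ᶠ n : ℕ in Filter.atTop, ∃ m ≥ n, g m ≤ (n : ℝ) ^ c) :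
    ∀ᵐ O ∂randomOracle, ∀ A : Oracle, Close g O A →
      (∀ L, IsAM A L ↔ IsNP A L) ∧ ∀ L, IsMA A L ↔ IsNP A L := by
  refine pos (Pool.Agent.W246.AMNP.task Pool.Agent.W446.AMAMP.task)
    (Pool.Agent.W381.AM.task Pool.Agent.W446.AMAMP.task) Pool.Agent.W303.AM.task ?_
  unfold Super
  push Not
  exact h

end Pool.Agent.W886.AM
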