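import Pool.Agent.W886.AM.Asm
import Pool.Agent.W538.AM.Stg
import Pool.Agent.W274.AMAMV
import Pool.Agent.W918.AMSETT
import Pool.Agent.W209.AMClean
import Pool.Agent.W822.AMTASK
import Pool.Agent.W585.AMCORE

/-!
# Many changes
-/

set_option autoImplicit false

namespace Pool.Agent.W886.AM

open Pool.Agent.NPC Pool.Agent.H620R2.Gauge Pool.Agent.W900.RB Pool.Agent.W895.MA
open Pool.Agent.H628R3.RO (randomOracle)
open Pool.Agent.W900.CH (Close)
open MeasureTheory Filter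

theorem many {g : ℕ → ℝ}
    (h : ¬ ∃ c : ℕ, ∀ᶠ n : ℕ in Filter.atTop, ∃ m ≥ n, g m ≤ (n : ℝ) ^ c) :
    ∀ᵐ O ∂randomOracle, ∃ A : Oracle, Close g O A ∧ ∃ L, IsAM A L ∧ ¬ IsMA A L := by
  refine neg Pool.Agent.W538.AM.task Pool.Agent.W209.AMClean.task
    (Pool.Agent.W822.AMTASK.task Pool.Agent.W585.AMC.task Pool.Agent.W918.AMSETT.task)
    Pool.Agent.W274.AMAMV.amv ?_
  by_contra hs
  unfold Super at hs
  push Not at hs
  exact h hs

end Pool.Agent.W886.AM
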