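import Pool.Agent.W886.AM.Defs

/-!
# Statements
-/

set_option autoImplicit false

namespace Pool.Agent.W886.AM

open Pool.Agent.NPC Pool.Agent.H620R2.Gauge Pool.Agent.W900.RB Pool.Agent.W895.MA
open Pool.Agent.H628R3.RO (randomOracle)
open Pool.Agent.W900.CH (Close)
open MeasureTheory Filter

open Classical in
/-- the counting lemma: some table is good against all messages -/
def S_CORE : Prop :=
  ∀ (r n q p : ℕ) (Ω Y : Type) [Fintype Ω] [Fintype Y]
    (hits : Y → ((Fin r → Bool) → Option (Fin n → Bool)) → Ω →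
      Finset ((Fin r → Bool) × (Fin n → Bool))),
    (∀ y t ω, (hits y t ω).card ≤ q) → Fintype.card Y ≤ 2 ^ p → 12 * q * 2 ^ r ≤ 2 ^ n →
    3 * (p + 1) ≤ 2 ^ r →
    ∃ s : (Fin r → Bool) → (Fin n → Bool), ∀ y, ∃ D : Finset (Fin r → Bool),
      3 * D.card ≤ 2 ^ r ∧
      6 * (Finset.univ.filter (fun ω : Ω => ∃ w ∉ D,
        (w, s w) ∈ hits y (fun w => if w ∈ D then some (s w) else none) ω)).card ≤
        Fintype.card Ω

/-- stages, where the old oracle is not changed in the new region -/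
def S_STG : Prop :=
  ∀ (g : ℕ → ℝ), Super g → ∀ (O : Oracle) (W : ℕ → ℕ → Oracle → Prop)
    (cost b : ℕ → Polynomial ℕ) (N₀ : ℕ),
    (∀ k, ∀ᶠ n : ℕ in atTop, ∀ B : Oracle, (∀ y ∈ Region n, B y = O y) →
      ∃ B' : Oracle, (∀ y ∉ Region n, B' y = B y) ∧
      {y | B y ≠ B' y}.Finite ∧ {y | B y ≠ B' y}.ncard ≤ (cost k).eval n ∧
      ∀ B'' : Oracle, (∀ y : List Bool, y.length ≤ (b k).eval n → B'' y = B' y) → W k n B'') →
    ∃ (A : Oracle) (n : ℕ → ℕ), StrictMono n ∧ (∀ k, N₀ ≤ n k) ∧ Close g O A ∧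
      (∀ y, (∀ k, y ∉ Region (n k)) → A y = O y) ∧ ∀ k, W k (n k) A

/-- a random oracle is clean -/
def S_CLEAN : Prop := ∀ᵐ O ∂randomOracle, ∀ᶠ n : ℕ in atTop, Clean O n

/-- the oracle `setT` -/
def S_SETT : Prop :=
  ∀ (B : Oracle) (n r : ℕ) (t : List Bool → Option (List Bool)), r ≤ n →
    (∀ y ∉ Region n, setT B n r t y = B y) ∧ Marked (setT B n r t) n ∧ rr (setT B n r t) n = r ∧
    {y | B y ≠ setT B n r t y}.Finite ∧
    {y | B y ≠ setT B n r t y}.ncard ≤ 2 * n + 3 * n * 2 ^ r ∧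
    (∀ w u : List Bool, w.length = r → t w = some u → u.length = n → Ans (setT B n r t) n w u) ∧
    (Clean B n → ∀ w u : List Bool, w.length = r → Ans (setT B n r t) n w u → t w = some u) ∧
    ∀ (t' : List Bool → Option (List Bool)) (y : List Bool),
      setT B n r t y ≠ setT B n r t' y → ∃ (w u : List Bool) (j : ℕ), w.length = r ∧
        u.length = n ∧ y = bl n w u j ∧ (t w = some u ∧ t' w ≠ some u ∨ t' w = some u ∧
          t w ≠ some u)

/-- the stage -/
def S_TASK : Prop :=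
  ∀ (M : Alg) (P : Polynomial ℕ), ∃ cost b : Polynomial ℕ, ∀ᶠ n : ℕ in atTop, ∀ B : Oracle,
    Clean B n → ∃ B' : Oracle, (∀ y ∉ Region n, B' y = B y) ∧ {y | B y ≠ B' y}.Finite ∧
      {y | B y ≠ B' y}.ncard ≤ cost.eval n ∧
      ∀ B'' : Oracle, (∀ y : List Bool, y.length ≤ b.eval n → B'' y = B' y) → WM M P n B''

/-- the verifier of the Arthur-Merlin game -/
def S_AMV : Prop :=
  ∀ (A : Oracle) (N₀ : ℕ), ∃ V : List Bool → List Bool, IsFP A V ∧ ∀ w y x : List Bool,
    (V (pairBits w (pairBits y x)) = [true] ↔ N₀ ≤ x.length ∧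
      x = List.replicate x.length true ∧ Marked A x.length ∧ rr A x.length < x.length ∧
      Ans A x.length (w.take (rr A x.length)) y)

/-- majorities -/
def S_AMP : Prop :=
  ∀ (m : ℕ) (E : List Bool → Prop) (b : Prop),
    3 * Nat.card {w : Fin m → Bool // ¬ (E (List.ofFn w) ↔ b)} ≤ 2 ^ m →
    256 * Nat.card {w : Fin (2048 * m) → Bool //
      ¬ (1024 < Set.ncard {i : ℕ | i < 2048 ∧ E (((List.ofFn w).drop (i * m)).take m)} ↔ b)} ≤
      2 ^ (2048 * m)

/-- `AM` is in `NP`, after polynomially many changes of a random oracle -/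
def S_AMNP : Prop :=
  ∀ᵐ O ∂randomOracle, ∀ A : Oracle, (∃ c, PClose c O A) → ∀ L, IsAM A L → IsNP A L

/-- `MA` is in `NP`, after polynomially many changes of a random oracle -/
def S_MANP : Prop :=
  ∀ᵐ O ∂randomOracle, ∀ A : Oracle, (∃ c, PClose c O A) → ∀ L, IsMA A L → IsNP A L

/-- `NP` is in `MA` and in `AM` -/
def S_NPI : Prop := ∀ (A : Oracle) (L : Set (List Bool)), IsNP A L → IsMA A L ∧ IsAM A L

end Pool.Agent.W886.AM
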